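import Pool.Agent.Helper84.FP.Goals

/-!
# Packet FQ-UNI (MP_43a2f8_nt): a fixed point is determined by its discovery data
-/

set_option autoImplicit false

namespace Pool.Agent.Helper59.FQ.UNI

open Finset Pool.Agent.Helper91.FP Pool.Agent.Helper84.FP

theorem step (hS : S_SIZ) {n n' : ℕ} (hn : 0 < n) (h : a n = n) (hn' : 0 < n') (h' : a n' = n')
    (hT : n.divisors.card = n'.divisors.card) (hR : n.primeFactors.card = n'.primeFactors.card)
    (h1 : (n.divisors.card + 1 ∣ n) → (n.divisors.card + 1 ∣ n'))
    (h2 : ((n.divisors.card + 1) / 2 ∣ n) → ((n.divisors.card + 1) / 2 ∣ n'))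
    {q q' : ℕ → ℕ} (hq : IsOrd n q) (hq' : IsOrd n' q')
    (hf : ∀ j < n.primeFactors.card, n.factorization (q j) = n'.factorization (q' j))
    {j : ℕ} (hj1 : 1 ≤ j) (hj : j < n.primeFactors.card) (hi : ∀ i < j, q i = q' i) :
    q' j ≤ q j := by
  obtain ⟨-, hm, hne, hd⟩ := hq
  obtain ⟨-, hm', hne', hd'⟩ := hq'
  have hjR' : j < n'.primeFactors.card := hR ▸ hj
  have hD : ∏ i ∈ range j, G (q i) (n.factorization (q i)) =
      ∏ i ∈ range j, G (q' i) (n'.factorization (q' i)) := by
    refine prod_congr rfl fun i hi' => ?_
    have hij := mem_range.1 hi'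
    rw [hf i (hij.trans hj), hi i hij]
  have hqj := hm j hj
  have hp : (q j).Prime := Nat.prime_of_mem_primeFactors hqj
  have hdv : q j ∣ ∏ i ∈ range j, G (q' i) (n'.factorization (q' i)) := by
    rw [← hD]
    exact (hd j hj hj1).1
  have hinj : Set.InjOn q' (range j : Set ℕ) := by
    intro x hx y hy hxy
    have hx' : x < j := by simpa using hx
    have hy' : y < j := by simpa using hy
    rcases lt_trichotomy x y with hlt | heq | hlt
    · exact absurd hxy (hne' y (hy'.trans hjR') x hlt)
    · exact heq
    · exact absurd hxy.symm (hne' x (hx'.trans hjR') y hlt)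
  have hsub : ∏ i ∈ range j, G (q' i) (n'.factorization (q' i)) ∣
      ∏ p ∈ n'.primeFactors, G p (n'.factorization p) := by
    rw [← prod_image (f := fun p => G p (n'.factorization p)) hinj]
    refine prod_dvd_prod_of_subset _ _ _ ?_
    intro p hp'
    obtain ⟨i, hi', rfl⟩ := mem_image.1 hp'
    exact hm' i ((mem_range.1 hi').trans hjR')
  have hdiv : q j ∣ n' * (n'.divisors.card + 1) := by
    have := hdv.trans hsub
    rw [prod_eq hn' h'] at this
    first
    | exact this
    | (rw [add_comm] at this; exact this)
  have hjn : q j ∣ n := Nat.dvd_of_mem_primeFactors hqj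
  have hjn' : q j ∣ n' := by
    rcases (Nat.Prime.dvd_mul hp).1 hdiv with h3 | h3
    · exact h3
    · have hlt := (hS n hn h).2.1 (q j) hqj
      obtain ⟨c, hc⟩ := h3
      rw [← hT] at hc
      have hc2 : c ≤ 2 := by
        by_contra hcon
        push Not at hcon
        have : q j * 3 ≤ q j * c := Nat.mul_le_mul_left _ hcon
        have := hp.pos
        omega
      have hc0 : c ≠ 0 := by
        rintro rfl
        simp at hc
      have hc1 : c = 1 ∨ c = 2 := by omega
      rcases hc1 with rfl | rfl
      · rw [mul_one] at hc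
        rw [← hc]
        apply h1
        rw [hc]
        exact hjn
      · have hc3 : (n.divisors.card + 1) / 2 = q j := by omega
        rw [← hc3]
        apply h2
        rw [hc3]
        exact hjn
  have hmem : q j ∈ n'.primeFactors := Nat.mem_primeFactors.2 ⟨hp, hjn', hn'.ne'⟩
  refine (hd' j hjR' hj1).2 (q j) hmem ?_ hdv
  intro i hij
  rw [← hi i hij]
  exact (hne j hj i hij).symm

theorem img {n : ℕ} {q : ℕ → ℕ} (hq : IsOrd n q) :
    (range n.primeFactors.card).image q = n.primeFactors := by
  obtain ⟨-, hm, hne, -⟩ := hq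
  refine eq_of_subset_of_card_le ?_ ?_
  · intro p hp
    obtain ⟨i, hi, rfl⟩ := mem_image.1 hp
    exact hm i (mem_range.1 hi)
  · rw [card_image_of_injOn, card_range]
    intro x hx y hy hxy
    have hx' : x < n.primeFactors.card := by simpa using hx
    have hy' : y < n.primeFactors.card := by simpa using hy
    rcases lt_trichotomy x y with hlt | heq | hlt
    · exact absurd hxy (hne y hy' x hlt)
    · exact heq
    · exact absurd hxy.symm (hne x hx' y hlt)

theorem t : S_SIZ → S_UNI := by
  intro hS n n' hn h hn' h' hT hR hmin h1 h2 q q' hq hq' hf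
  have key : ∀ j, j < n.primeFactors.card → q j = q' j := by
    intro j
    induction j using Nat.strong_induction_on with
    | _ j ih =>
      intro hj
      rcases Nat.eq_zero_or_pos j with rfl | hj1
      · rw [hq.1, hq'.1, hmin]
      · have hi : ∀ i < j, q i = q' i := fun i hij => ih i hij (hij.trans hj)
        apply le_antisymm
        · refine step hS hn' h' hn h hT.symm hR.symm ?_ ?_ hq' hq ?_ hj1 (hR ▸ hj)
            (fun i hij => (hi i hij).symm)
          · rw [← hT]
            exact h1.2
          · rw [← hT]
            exact h2.2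
          · intro i hi'
            exact (hf i (hR ▸ hi')).symm
        · exact step hS hn h hn' h' hT hR h1.1 h2.1 hq hq' hf hj1 hj hi
  have himg : n.primeFactors = n'.primeFactors := by
    rw [← img hq, ← img hq', ← hR]
    refine image_congr ?_
    intro i hi
    have : i < n.primeFactors.card := by simpa using hi
    exact key i this
  refine Nat.eq_of_factorization_eq hn.ne' hn'.ne' ?_
  intro p
  by_cases hp : p ∈ n.primeFactors
  · have hp2 := hp
    rw [← img hq] at hp2
    obtain ⟨i, hi, rfl⟩ := mem_image.1 hp2
    have hi' := mem_range.1 hi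
    rw [hf i hi', key i hi']
  · have e1 : n.factorization p = 0 := by
      rw [← Nat.support_factorization] at hp
      exact Finsupp.notMem_support_iff.1 hp
    have hp' : p ∉ n'.primeFactors := himg ▸ hp
    have e2 : n'.factorization p = 0 := by
      rw [← Nat.support_factorization] at hp'
      exact Finsupp.notMem_support_iff.1 hp'
    rw [e1, e2]

end Pool.Agent.Helper59.FQ.UNI
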